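import Pool.Agent.MP_57341d_ag.HM.Main

/-! The period conjecture for all motives of weight zero in the tensor category generated by an
abelian variety with a commutative Mumford-Tate group. -/

open GPC73 GPCM

namespace Pool.Agent.Results.MP_57341d_ag.AllCMEnd

theorem result {g N s m : ℕ} (A : AbVar g N)
    (hA : ∀ x ∈ MT (hz A), ∀ y ∈ MT (hz A), x * y = y * x) (M : Mot A s m)
    (h0 : ∀ i, (M.r i : ℤ) = 2 * M.k i) :
    ∃ d : ℕ, gdim (MT M.h) = d ∧ Algebra.trdeg ℚ M.per = d :=
  mot_zero A hA M h0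

end Pool.Agent.Results.MP_57341d_ag.AllCMEnd
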