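import Pool.Agent.MP_57341d_ag.HM.Main

/-! The period conjecture for motives with a part of nonzero weight in the tensor category generated
by an abelian variety with a commutative Mumford-Tate group holds or fails by one, and one subspace
of `ℝ` describes all failures. -/

open GPC73 GPCM

namespace Pool.Agent.Results.MP_57341d_ag.AllCMFull

open Classical in
theorem result : ∃ W : Submodule ℚ ℝ, W ≠ ⊥ ∧ ∀ (g N s m : ℕ) (A : AbVar g N),
    (∀ x ∈ MT (hz A), ∀ y ∈ MT (hz A), x * y = y * x) → ∀ M : Mot A s m,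
      (∃ x j, M.B x j ≠ 0 ∧ (M.r x.1 : ℤ) ≠ 2 * M.k x.1) → ∃ d : ℕ, gdim (MT M.h) = d ∧
        Algebra.trdeg ℚ M.per + (if W ≤ Submodule.span ℚ (Set.range fun q : Fin m × Fin m =>
          deriv (fun θ : ℝ => M.h (Complex.exp (θ * Complex.I)) q.1 q.2) 0) then 1 else 0) = d :=
  mot_all

end Pool.Agent.Results.MP_57341d_ag.AllCMFull
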