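import Pool.Agent.MP_57341d_ag.H36W.G3

/-! The transcendence degree of the field generated by the numbers `Γ(a / N) ^ 2 * π ^ k`. -/

namespace Pool.Agent.Results.MP_57341d_ag.GammaValues

theorem result : ∃ N₀ : ℕ, N₀ ≠ 1 ∧ N₀ ≠ 2 ∧ ∀ N : ℕ, 3 ≤ N → ∀ k : ℤ,
    Algebra.trdeg ℚ (IntermediateField.adjoin ℚ
      {z : ℂ | ∃ a : ℕ, 0 < a ∧ a < N ∧
        z = Complex.Gamma ((a : ℂ) / (N : ℂ)) ^ 2 * (Real.pi : ℂ) ^ k}) =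
      ((Nat.totient N / 2 + if k = -1 ∨ N₀ ∣ N then 0 else 1 : ℕ) : Cardinal) :=
  GPC48.g3

end Pool.Agent.Results.MP_57341d_ag.GammaValues
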