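import Pool.Agent.MP_57341d_ag.H33.Gen

/-! A lower bound for the transcendence degree of the field of definition in de Rham cohomology
of a semistable rational subspace of the first Betti cohomology of an abelian variety. -/

open Module GPC73

namespace Pool.Agent.Results.MP_57341d_ag.LargeTrdeg

theorem result {g N m h : ℕ} (A : AbVar g N) (V : Submodule ℚ (Fin (2 * g) → ℚ))
    (hm : finrank ℚ V = m)
    (hs : ∀ U : Submodule ℂ (Fin g → ℂ), A.IsSub U → U ≠ ⊥ → U ≠ ⊤ → ∀ x n : ℕ,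
      finrank ℚ (V ⊓ A.ann U : Submodule ℚ _) = x → finrank ℚ (A.ann U) = n →
      2 * g * x ≤ m * n ∧ (m = g → 2 * x < n))
    (Vc F₁ : Submodule ℂ (Fin (2 * g) → ℂ))
    (hV : Vc = Submodule.span ℂ ((fun (v : Fin (2 * g) → ℚ) j => (v j : ℂ)) '' V))
    (hF : F₁ = Submodule.span ℂ (Set.range fun i j => A.ω j i))
    (hh : finrank ℂ (Vc ⊓ F₁ : Submodule ℂ _) = h) (K : IntermediateField ℚ ℂ)
    (hK : Vc ≤ Submodule.span ℂ ((Submodule.span K A.dR : Set (Fin (2 * g) → ℂ)) ∩ Vc)) :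
    ((m * (2 * g - m) : ℕ) : Cardinal) ≤ ((g * (m - 2 * h) : ℕ) : Cardinal) * Algebra.trdeg ℚ K := by
  subst hV hF hm hh
  exact GPC33.stable_b A V (fun U h1 h2 h3 => hs U h1 h2 h3 _ _ rfl rfl) K hK

end Pool.Agent.Results.MP_57341d_ag.LargeTrdeg
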